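import Pool.Agent.Helper85.Mass.Main

set_option autoImplicit false

/-!
# Matrix multiplication: number of products against the amount of cancellation

Circuits (`Circuit`, `Circuit.poly`, `Circuit.nonscalarCount`) are defined in
`Pool.Agent.H522R2.Circuit`, the variables `Vars m` and the entries `entry F m i k` of the product
of two generic `m × m` matrices in `Pool.Agent.H88R3.MM.Circ`, and `productMass` (with `transfer`,
`l1`) and `mass` (with `absolute`) in `Pool.Agent.Helper85.Mass.Defs`.
-/

namespace Pool.Agent.Helper85.Variants.CancellationTradeoff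

open Finset Pool.Agent.H88R3.MM Pool.Agent.H522R2 Pool.Agent.Helper85.Mass

/-- Let `C` be an arithmetic circuit over a field `F` in the entries of two `m × m` matrices, with
designated nodes `o i k`, let `N` be the number of its nonscalar multiplications, and let `v` be an
absolute value on `F` (the usual one, its powers, the trivial one, ...).

(1) If the circuit computes the matrix product, then `m ^ 6 ≤ 2 N · productMass`.
(2) `productMass ≤ ∑ i, ∑ k, mass (o i k)`, the sum of the absolute values of all the terms
`c · a_x · b_y` in the full expansions of the outputs, before any cancellation.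
(3) Hence, if `m ≥ 1` and the mass of each output is at most `K m` (the output itself has mass
`m`), then `m ^ 3 ≤ 2 N K`.
(4) More generally, without any assumption on what the circuit computes: if `S` is a set of triples
`(i, j, k)` for which the coefficient of `a_{ij} b_{jk}` in the node `o i k` has absolute value at
least `1`, then `|S| ^ 2 ≤ 2 N · productMass`. -/
theorem result (F : Type*) [Field F] (v : AbsoluteValue F ℝ) (m : ℕ) (C : Circuit F (Vars m))
    (o : Fin m → Fin m → Fin C.nodes) :
    ((∀ i k, C.poly (o i k) = entry F m i k) →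
      (m : ℝ) ^ 6 ≤ 2 * C.nonscalarCount * productMass v C o) ∧
    productMass v C o ≤ ∑ i, ∑ k, mass v C (o i k) ∧
    ((∀ i k, C.poly (o i k) = entry F m i k) → 1 ≤ m →
      ∀ K : ℝ, (∀ i k, mass v C (o i k) ≤ K * m) → (m : ℝ) ^ 3 ≤ 2 * C.nonscalarCount * K) ∧
    (∀ S : Finset (Fin m × Fin m × Fin m),
      (∀ x ∈ S, 1 ≤ v ((C.poly (o x.1 x.2.2)).coeff (Finsupp.single (Sum.inl (x.1, x.2.1)) 1 +
        Finsupp.single (Sum.inr (x.2.1, x.2.2)) 1))) →
      (S.card : ℝ) ^ 2 ≤ 2 * C.nonscalarCount * productMass v C o) := by
  have h1 : (∀ i k, C.poly (o i k) = entry F m i k) →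
      (m : ℝ) ^ 6 ≤ 2 * C.nonscalarCount * productMass v C o := by
    intro ho
    have := card_sq_le v C o Finset.univ (fun x _ => by
      rw [ho, coeff_entry, map_one])
    rw [Finset.card_univ, Fintype.card_prod, Fintype.card_prod, Fintype.card_fin] at this
    refine le_trans (le_of_eq ?_) this
    push_cast
    ring
  refine ⟨h1, productMass_le v C o, fun ho hm K hK => ?_, card_sq_le v C o⟩
  have hm' : (0 : ℝ) < m := by exact_mod_cast hm
  have h2 := h1 ho
  have h3 := productMass_le v C o
  have h4 : ∑ i, ∑ k, mass v C (o i k) ≤ (m : ℝ) ^ 3 * K := by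
    calc ∑ i, ∑ k, mass v C (o i k) ≤ ∑ _i : Fin m, ∑ _k : Fin m, K * m :=
          Finset.sum_le_sum fun i _ => Finset.sum_le_sum fun k _ => hK i k
      _ = _ := by
          simp only [Finset.sum_const, Finset.card_univ, Fintype.card_fin, nsmul_eq_mul]
          ring
  have h5 : (m : ℝ) ^ 6 ≤ 2 * C.nonscalarCount * ((m : ℝ) ^ 3 * K) :=
    h2.trans (mul_le_mul_of_nonneg_left (h3.trans h4) (by positivity))
  have h6 : (m : ℝ) ^ 3 * (m : ℝ) ^ 3 ≤ (m : ℝ) ^ 3 * (2 * C.nonscalarCount * K) := by
    nlinarith
  exact le_of_mul_le_mul_left h6 (by positivity)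

end Pool.Agent.Helper85.Variants.CancellationTradeoff
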